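import Mathlib
import Pool.Agent.H602R3.DHJ.Main

set_option autoImplicit false

/-!
# The ratios of homothetic copies in a dense set meet every large finite set of sums (helper709)

Furstenberg-Katznelson: from the density Hales-Jewett theorem `Pool.Agent.H602R3.DHJ.dhj`.
-/

open Finset

namespace Pool.Agent.TH709.RGap

open Pool.Agent.H602R3.DHJ

/-- there are arbitrarily large cubes in which `A` has density at least `δ` -/
def Dense {e : ℕ} (A : Set (Fin e → ℤ)) (δ : ℝ) : Prop :=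
  ∀ L : ℕ, ∃ N : ℕ, L ≤ N ∧ ∃ x : Fin e → ℤ,
    δ * (N : ℝ) ^ e ≤ (Set.ncard {v | v ∈ A ∧ ∀ i, x i ≤ v i ∧ v i < x i + N} : ℝ)

/-- the cube -/
noncomputable def box {e : ℕ} (x : Fin e → ℤ) (N : ℕ) : Finset (Fin e → ℤ) :=
  Fintype.piFinset (fun i => Finset.Ico (x i) (x i + N))

theorem mem_box {e : ℕ} (x : Fin e → ℤ) (N : ℕ) (v : Fin e → ℤ) :
    v ∈ box x N ↔ ∀ i, x i ≤ v i ∧ v i < x i + N := by
  unfold box
  rw [Fintype.mem_piFinset]
  simp only [mem_Ico]

theorem card_box {e : ℕ} (x : Fin e → ℤ) (N : ℕ) : (box x N).card = N ^ e := by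
  unfold box
  rw [Fintype.card_piFinset]
  simp

open Classical in
/-- sums along a line -/
theorem sum_line' {G : Type} [AddCommGroup G] {k N : ℕ} (V : Fin N → Fin (k + 1) ⊕ Unit)
    (g : Fin N → Fin (k + 1) → G) :
    ∃ s : G, ∀ a, ∑ i, g i (ap V (fun _ => a) i) =
      s + ∑ i ∈ univ.filter (fun i => V i = Sum.inr ()), g i a := by
  refine ⟨∑ i ∈ univ.filter (fun i => ¬ V i = Sum.inr ()), g i (ap V (fun _ => 0) i), fun a => ?_⟩
  rw [← sum_filter_add_sum_filter_not univ (fun i => V i = Sum.inr ()), add_comm]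
  congr 1
  · refine sum_congr rfl fun i hi => ?_
    have h := (mem_filter.1 hi).2
    congr 1
    unfold ap
    rcases hV : V i with b | u
    · rfl
    · exact absurd (by rw [hV]) h
  · refine sum_congr rfl fun i hi => ?_
    have h := (mem_filter.1 hi).2
    congr 1
    unfold ap
    rw [h]
    rfl

theorem pow_box (M N e : ℕ) (hN : 4 * M * e ≤ N) (hN0 : 0 < N) :
    ((N + 2 * M : ℕ) : ℝ) ^ e ≤ 2 * (N : ℝ) ^ e := by
  have hN0' : (0 : ℝ) < N := by exact_mod_cast hN0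
  have h1 : ((N + 2 * M : ℕ) : ℝ) = (2 * M / N + 1) * N := by
    push_cast
    field_simp
    ring
  rw [h1, mul_pow]
  apply mul_le_mul_of_nonneg_right _ (by positivity)
  have h2 : (2 * (M : ℝ) / N + 1) ^ e ≤ Real.exp (2 * M / N) ^ e :=
    pow_le_pow_left₀ (by positivity) (Real.add_one_le_exp _) e
  rw [← Real.exp_nat_mul] at h2
  refine h2.trans ?_
  have h3 : (e : ℝ) * (2 * M / N) ≤ 1 / 2 := by
    rw [← mul_div_assoc, div_le_iff₀ hN0']
    have h4 : (4 * M * e : ℝ) ≤ N := by exact_mod_cast hN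
    linarith
  refine (Real.exp_le_exp.2 h3).trans ?_
  have h5 : Real.exp (1 / 2) * Real.exp (1 / 2) = Real.exp 1 := by
    rw [← Real.exp_add]
    norm_num
  have h6 := Real.exp_one_lt_d9
  nlinarith [Real.exp_pos (1 / 2 : ℝ)]

/-- the ratios of homothetic copies in dense sets -/
theorem ipr (q : ℕ) (δ : ℝ) (hδ : 0 < δ) : ∃ (r : ℕ) (η : ℝ), 0 < η ∧
    ∀ (e : ℕ) (A : Set (Fin e → ℤ)), Dense A δ →
    ∀ (F : Fin (q + 1) → Fin e → ℤ) (h : Fin r → ℤ), ∃ I : Finset (Fin r), I.Nonempty ∧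
      Dense {a : Fin e → ℤ | ∀ t, a + (∑ i ∈ I, h i) • F t ∈ A} η := by
  classical
  obtain ⟨r, hr⟩ := dhj q (δ / 4) (by positivity)
  obtain ⟨T, hT⟩ : ∃ T : ℕ, T = Fintype.card (Fin r → Fin (q + 1) ⊕ Unit) := ⟨_, rfl⟩
  have hT0 : 0 < T := by
    rw [hT]
    exact Fintype.card_pos
  have hT0' : (0 : ℝ) < T := by exact_mod_cast hT0
  refine ⟨r, δ / (4 * T), by positivity, fun e A hA F h => ?_⟩
  -- the displacements
  obtain ⟨v, hv⟩ : ∃ v : (Fin r → Fin (q + 1)) → Fin e → ℤ, v = fun u => ∑ i, h i • F (u i) := ⟨_, rfl⟩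
  obtain ⟨M, hM⟩ : ∃ M : ℕ, ∀ u j, |v u j| ≤ M := by
    refine ⟨∑ u, ∑ j, (v u j).natAbs, fun u j => ?_⟩
    rw [Int.abs_eq_natAbs]
    have h1 : (v u j).natAbs ≤ ∑ j, (v u j).natAbs :=
      single_le_sum (f := fun j => (v u j).natAbs) (fun _ _ => Nat.zero_le _) (mem_univ j)
    have h2 : ∑ j, (v u j).natAbs ≤ ∑ u, ∑ j, (v u j).natAbs :=
      single_le_sum (f := fun u => ∑ j, (v u j).natAbs) (fun _ _ => Nat.zero_le _) (mem_univ u)
    exact_mod_cast h1.trans h2
  have hline : ∀ V : Fin r → Fin (q + 1) ⊕ Unit, ∃ s : Fin e → ℤ, ∀ a,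
      ∑ i, h i • F (ap V (fun _ => a) i) =
      s + ∑ i ∈ univ.filter (fun i => V i = Sum.inr ()), h i • F a := fun V =>
    sum_line' V (fun i b => h i • F b)
  choose s hs using hline
  -- one size of cubes
  have hone : ∀ L : ℕ, ∃ V : Fin r → Fin (q + 1) ⊕ Unit, Pr V ∧ ∃ N : ℕ, L ≤ N ∧ ∃ x : Fin e → ℤ,
      δ / (4 * T) * (N : ℝ) ^ e ≤ (Set.ncard {a : Fin e → ℤ | (∀ t, a +
        (∑ i ∈ univ.filter (fun i => V i = Sum.inr ()), h i) • F t ∈ A) ∧
          ∀ i, x i ≤ a i ∧ a i < x i + N} : ℝ) := by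
    intro L
    obtain ⟨N, hN, x, hx⟩ := hA (4 * M * e + 1 + L)
    have hN0 : 0 < N := by omega
    have hNe : (0 : ℝ) < (N : ℝ) ^ e := by
      have : (0 : ℝ) < N := by exact_mod_cast hN0
      positivity
    obtain ⟨Z, hZ⟩ : ∃ Z : Finset (Fin e → ℤ), Z = (box x N).filter (fun z => z ∈ A) := ⟨_, rfl⟩
    have hZc : δ * (N : ℝ) ^ e ≤ Z.card := by
      refine hx.trans (le_of_eq ?_)
      rw [← Set.ncard_coe_finset]
      congr 2
      ext z
      rw [hZ, mem_coe, mem_filter, mem_box]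
      exact and_comm
    obtain ⟨Y, hY⟩ : ∃ Y : Finset (Fin e → ℤ), Y = box (fun i => x i - M) (N + 2 * M) := ⟨_, rfl⟩
    have hpow : ((N + 2 * M : ℕ) : ℝ) ^ e ≤ 2 * (N : ℝ) ^ e := pow_box M N e (by omega) hN0
    have hYc : (Y.card : ℝ) ≤ 2 * (N : ℝ) ^ e := by
      rw [hY, card_box, Nat.cast_pow]
      exact hpow
    -- every translate is counted
    have hcnt : ∀ u, (Z.card : ℝ) ≤ ∑ y ∈ Y, (if y + v u ∈ A then (1 : ℝ) else 0) := by
      intro u
      rw [← sum_filter, sum_const, nsmul_eq_mul, mul_one, Nat.cast_le]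
      apply card_le_card_of_injOn (fun z => z - v u)
      · intro z hz
        rw [mem_coe, hZ, mem_filter, mem_box] at hz
        rw [mem_coe, mem_filter, hY, mem_box]
        refine ⟨fun i => ?_, ?_⟩
        · have h1 := hz.1 i
          have h2 := abs_le.1 (hM u i)
          simp only [Pi.sub_apply]
          push_cast
          constructor <;> linarith [h1.1, h1.2, h2.1, h2.2]
        · simpa using hz.2
      · intro z _ z' _ hzz
        simpa using hzz
    obtain ⟨W, hW⟩ : ∃ W : (Fin e → ℤ) → Set (Fin r → Fin (q + 1)), W = fun y => {u | y + v u ∈ A} :=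
      ⟨_, rfl⟩
    have hTpos : (0 : ℝ) < Fintype.card (Fin r → Fin (q + 1)) := by exact_mod_cast Fintype.card_pos
    have hdn : ∀ y, dn (W y) = (∑ u, (if y + v u ∈ A then (1 : ℝ) else 0)) /
        Fintype.card (Fin r → Fin (q + 1)) := by
      intro y
      unfold dn av
      congr 1
      refine sum_congr rfl fun u _ => ?_
      rw [Set.indicator_apply]
      rw [hW]
      rfl
    have hdn1 : ∀ y, dn (W y) ≤ 1 := by
      intro y
      rw [hdn, div_le_one hTpos]
      calc ∑ u, (if y + v u ∈ A then (1 : ℝ) else 0) ≤ ∑ _u : Fin r → Fin (q + 1), (1 : ℝ) :=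
            sum_le_sum fun u _ => by split_ifs <;> norm_num
        _ = _ := by rw [sum_const, card_univ, nsmul_eq_mul, mul_one]
    have hsum : δ * (N : ℝ) ^ e ≤ ∑ y ∈ Y, dn (W y) := by
      simp_rw [hdn]
      rw [← sum_div, sum_comm, le_div_iff₀ hTpos]
      have h1 : ∑ _u : Fin r → Fin (q + 1), (Z.card : ℝ) ≤
          ∑ u, ∑ y ∈ Y, (if y + v u ∈ A then (1 : ℝ) else 0) := sum_le_sum fun u _ => hcnt u
      rw [sum_const, card_univ, nsmul_eq_mul] at h1
      calc δ * (N : ℝ) ^ e * (Fintype.card (Fin r → Fin (q + 1)) : ℝ)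
          ≤ Z.card * (Fintype.card (Fin r → Fin (q + 1)) : ℝ) := mul_le_mul_of_nonneg_right hZc hTpos.le
        _ = (Fintype.card (Fin r → Fin (q + 1)) : ℝ) * Z.card := mul_comm _ _
        _ ≤ _ := h1
    -- the translates with many words
    obtain ⟨Gd, hG⟩ : ∃ Gd : Finset (Fin e → ℤ), Gd = Y.filter (fun y => δ / 4 ≤ dn (W y)) := ⟨_, rfl⟩
    have hGc : δ / 2 * (N : ℝ) ^ e ≤ Gd.card := by
      have h1 : ∑ y ∈ Y, dn (W y) ≤ ∑ y ∈ Y, ((if δ / 4 ≤ dn (W y) then (1 : ℝ) else 0) + δ / 4) := by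
        refine sum_le_sum fun y _ => ?_
        split_ifs with h0
        · have := hdn1 y
          linarith
        · push Not at h0
          linarith
      rw [sum_add_distrib, ← sum_filter, sum_const, sum_const, nsmul_eq_mul, nsmul_eq_mul, mul_one,
        ← hG] at h1
      have h2 : (Y.card : ℝ) * (δ / 4) ≤ 2 * (N : ℝ) ^ e * (δ / 4) :=
        mul_le_mul_of_nonneg_right hYc (by positivity)
      linarith
    have hVy : ∀ y, ∃ V : Fin r → Fin (q + 1) ⊕ Unit, y ∈ Gd → Pr V ∧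
        ∀ t, y + v (ap V (fun _ => t)) ∈ A := by
      intro y
      by_cases hy : y ∈ Gd
      · have hy' : δ / 4 ≤ dn (W y) := by
          rw [hG] at hy
          exact (mem_filter.1 hy).2
        have hnl : ¬ LFr (W y) := fun hl => absurd (hr _ hl) (not_lt.2 hy')
        unfold LFr at hnl
        push Not at hnl
        obtain ⟨V, hV, hVW⟩ := hnl
        refine ⟨V, fun _ => ⟨hV, fun t => ?_⟩⟩
        have h1 := hVW t
        rw [hW] at h1
        exact h1
      · exact ⟨fun _ => Sum.inr (), fun h => absurd h hy⟩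
    choose Vy hVy using hVy
    -- the most frequent line
    have hex : ∃ V : Fin r → Fin (q + 1) ⊕ Unit,
        δ / (2 * T) * (N : ℝ) ^ e ≤ ((Gd.filter (fun y => Vy y = V)).card : ℝ) := by
      by_contra hcon
      push Not at hcon
      have h1 : (Gd.card : ℝ) = ∑ V : Fin r → Fin (q + 1) ⊕ Unit,
          ((Gd.filter (fun y => Vy y = V)).card : ℝ) := by
        rw [card_eq_sum_card_fiberwise (f := Vy) (t := univ) (fun _ _ => mem_coe.2 (mem_univ _))]
        push_cast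
        rfl
      have h2 : ∑ V : Fin r → Fin (q + 1) ⊕ Unit, ((Gd.filter (fun y => Vy y = V)).card : ℝ) <
          ∑ _V : Fin r → Fin (q + 1) ⊕ Unit, δ / (2 * T) * (N : ℝ) ^ e :=
        sum_lt_sum_of_nonempty univ_nonempty fun V _ => hcon V
      rw [← h1, sum_const, card_univ, nsmul_eq_mul, ← hT] at h2
      have h3 : (T : ℝ) * (δ / (2 * T) * (N : ℝ) ^ e) = δ / 2 * (N : ℝ) ^ e := by
        field_simp
      linarith
    obtain ⟨V, hVc⟩ := hex
    have hVne : (Gd.filter (fun y => Vy y = V)).Nonempty := by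
      rw [← card_pos]
      have h1 : (0 : ℝ) < δ / (2 * T) * (N : ℝ) ^ e := by positivity
      exact_mod_cast h1.trans_le hVc
    obtain ⟨y0, hy0⟩ := hVne
    have hV : Pr V := by
      have h1 := mem_filter.1 hy0
      rw [← h1.2]
      exact (hVy y0 h1.1).1
    refine ⟨V, hV, N + 2 * M, by omega, fun i => x i - M + s V i, ?_⟩
    have hfin : {a : Fin e → ℤ | (∀ t, a +
        (∑ i ∈ univ.filter (fun i => V i = Sum.inr ()), h i) • F t ∈ A) ∧
          ∀ i, x i - M + s V i ≤ a i ∧ a i < x i - M + s V i + ((N + 2 * M : ℕ) : ℤ)}.Finite := by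
      refine (finite_toSet (box (fun i => x i - M + s V i) (N + 2 * M))).subset ?_
      rintro a ⟨-, ha⟩
      rw [mem_coe, mem_box]
      exact ha
    have h1 : (Gd.filter (fun y => Vy y = V)).card ≤ Set.ncard {a : Fin e → ℤ | (∀ t, a +
        (∑ i ∈ univ.filter (fun i => V i = Sum.inr ()), h i) • F t ∈ A) ∧
          ∀ i, x i - M + s V i ≤ a i ∧ a i < x i - M + s V i + ((N + 2 * M : ℕ) : ℤ)} := by
      rw [← card_image_of_injective (Gd.filter (fun y => Vy y = V)) (add_left_injective (s V)),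
        ← Set.ncard_coe_finset]
      refine Set.ncard_le_ncard ?_ hfin
      intro a ha
      obtain ⟨y, hy, rfl⟩ := mem_image.1 (mem_coe.1 ha)
      have hy1 := mem_filter.1 hy
      refine ⟨fun t => ?_, fun i => ?_⟩
      · have h2 := (hVy y hy1.1).2 t
        rw [hy1.2, hv] at h2
        simp only at h2
        rw [hs V t] at h2
        rw [sum_smul]
        simp only [add_assoc]
        exact h2
      · have h2 := hy1.1
        rw [hG, mem_filter, hY, mem_box] at h2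
        have h3 := h2.1 i
        simp only [Pi.add_apply]
        constructor <;> linarith [h3.1, h3.2]
    calc δ / (4 * T) * ((N + 2 * M : ℕ) : ℝ) ^ e ≤ δ / (4 * T) * (2 * (N : ℝ) ^ e) :=
          mul_le_mul_of_nonneg_left hpow (by positivity)
      _ = δ / (2 * T) * (N : ℝ) ^ e := by
          field_simp
          ring
      _ ≤ _ := hVc
      _ ≤ _ := by exact_mod_cast h1
  -- one line for all sizes
  have hall : ∃ V : Fin r → Fin (q + 1) ⊕ Unit, Pr V ∧ ∀ L : ℕ, ∃ N : ℕ, L ≤ N ∧ ∃ x : Fin e → ℤ,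
      δ / (4 * T) * (N : ℝ) ^ e ≤ (Set.ncard {a : Fin e → ℤ | (∀ t, a +
        (∑ i ∈ univ.filter (fun i => V i = Sum.inr ()), h i) • F t ∈ A) ∧
          ∀ i, x i ≤ a i ∧ a i < x i + N} : ℝ) := by
    by_contra hcon
    push Not at hcon
    have hcon' : ∀ V : Fin r → Fin (q + 1) ⊕ Unit, ∃ L : ℕ, Pr V → ∀ N : ℕ, L ≤ N → ∀ x : Fin e → ℤ,
      (Set.ncard {a : Fin e → ℤ | (∀ t, a +
        (∑ i ∈ univ.filter (fun i => V i = Sum.inr ()), h i) • F t ∈ A) ∧
          ∀ i, x i ≤ a i ∧ a i < x i + N} : ℝ) < δ / (4 * T) * (N : ℝ) ^ e := by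
      intro V
      by_cases hV : Pr V
      · obtain ⟨L, hL⟩ := hcon V hV
        exact ⟨L, fun _ => hL⟩
      · exact ⟨0, fun h => absurd h hV⟩
    choose Lv hLv using hcon'
    obtain ⟨V, hV, N, hN, x, hx⟩ := hone (∑ V, Lv V)
    have h1 : Lv V ≤ ∑ V, Lv V := single_le_sum (f := Lv) (fun _ _ => Nat.zero_le _) (mem_univ V)
    exact absurd hx (not_le.2 (hLv V hV N (h1.trans hN) x))
  obtain ⟨V, hV, hVL⟩ := hall
  refine ⟨univ.filter (fun i => V i = Sum.inr ()), ?_, hVL⟩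
  obtain ⟨i, hi⟩ := hV ()
  exact ⟨i, mem_filter.2 ⟨mem_univ _, hi⟩⟩

end Pool.Agent.TH709.RGap
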