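import Mathlib

set_option autoImplicit false

/-!
# Deuber's theorem: monochromatic `(m, p, c)`-sets, bounded and with constant rows (helper709)
-/

open Finset

namespace Pool.Agent.TH709.RGap

/-- van der Waerden's theorem, two-sided, with bounds -/
theorem vdw (ρ Λ : ℕ) : ∃ N : ℕ, ∀ χ : ℕ → Fin ρ, ∃ a D : ℕ, 0 < D ∧ D ≤ N ∧ a ≤ N ∧ Λ * D < a ∧
    ∀ t : ℤ, |t| ≤ Λ → ∀ m : ℕ, (m : ℤ) = a + t * D → χ m = χ a := by
  classical
  obtain ⟨ι, _, h⟩ := Combinatorics.Line.exists_mono_in_high_dimension (Fin (2 * Λ + 1)) (Fin ρ)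
  refine ⟨1 + (2 * Λ + 1) * Fintype.card ι + Λ * Fintype.card ι, fun χ => ?_⟩
  obtain ⟨l, col, hl⟩ := h (fun w => χ (1 + ∑ i, ((w i : Fin (2 * Λ + 1)) : ℕ)))
  set D : ℕ := (univ.filter (fun i => l.idxFun i = none)).card with hD
  set s0 : ℕ := ∑ i ∈ univ.filter (fun i => ¬ l.idxFun i = none), ((l 0 i : Fin (2 * Λ + 1)) : ℕ) with hs0
  have hsum : ∀ x : Fin (2 * Λ + 1), ∑ i, ((l x i : Fin (2 * Λ + 1)) : ℕ) = s0 + D * x := by
    intro x
    rw [← sum_filter_add_sum_filter_not univ (fun i => ¬ l.idxFun i = none)]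
    congr 1
    · refine sum_congr rfl fun i hi => ?_
      have h1 := (mem_filter.1 hi).2
      obtain ⟨y, hy⟩ := Option.ne_none_iff_exists'.1 h1
      rw [Combinatorics.Line.apply_some hy, Combinatorics.Line.apply_some hy]
    · rw [hD, card_eq_sum_ones, sum_mul]
      refine sum_congr (by simp) fun i hi => ?_
      have h1 := (mem_filter.1 hi).2
      rw [Combinatorics.Line.apply_none _ _ _ h1, one_mul]
  have hDpos : 0 < D := by
    obtain ⟨i, hi⟩ := l.proper
    exact card_pos.2 ⟨i, mem_filter.2 ⟨mem_univ _, hi⟩⟩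
  have hDle : D ≤ Fintype.card ι := card_le_univ _
  have hs0le : s0 ≤ 2 * Λ * Fintype.card ι := by
    have h1 : s0 ≤ ∑ i ∈ univ.filter (fun i => ¬ l.idxFun i = none), 2 * Λ := by
      refine sum_le_sum fun i _ => ?_
      have := (l 0 i).2
      omega
    rw [sum_const, smul_eq_mul] at h1
    refine h1.trans ?_
    rw [mul_comm]
    exact Nat.mul_le_mul_left _ (card_le_univ _)
  have hcol : ∀ x : Fin (2 * Λ + 1), χ (1 + (s0 + D * x)) = col := by
    intro x
    rw [← hsum x]
    exact hl x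
  refine ⟨1 + (s0 + D * Λ), D, hDpos, ?_, ?_, ?_, ?_⟩
  · nlinarith
  · nlinarith
  · nlinarith
  · intro t ht m hm
    have h1 := abs_le.1 ht
    have hx : (Λ : ℤ) + t = ((Λ : ℤ) + t).toNat := (Int.toNat_of_nonneg (by linarith)).symm
    have hlt : ((Λ : ℤ) + t).toNat < 2 * Λ + 1 := by
      zify
      rw [← hx]
      push_cast
      linarith [h1.2]
    have h2 := hcol ⟨_, hlt⟩
    have h3 := hcol ⟨Λ, by omega⟩
    have h4 : m = 1 + (s0 + D * ((Λ : ℤ) + t).toNat) := by
      zify
      rw [← hx, hm]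
      push_cast
      ring
    rw [h4]
    exact h2.trans h3.symm

/-- rows: for every leading index the colour is constant -/
theorem rows (ρ p c₀ : ℕ) (hc : 0 < c₀) : ∀ M : ℕ, ∃ C : ℕ, ∀ χ : ℕ → Fin ρ, ∃ w : ℕ → ℕ,
    (∀ i < M, 0 < w i ∧ w i ≤ C) ∧ ∃ r : ℕ → Fin ρ, ∀ i < M, ∀ μ : ℕ → ℤ, (∀ j, |μ j| ≤ p) →
      ∃ m : ℕ, 0 < m ∧ (m : ℤ) = c₀ * w i + ∑ j ∈ range i, μ j * w j ∧ χ m = r i := by
  intro M
  induction M with
  | zero =>
    refine ⟨0, fun χ => ⟨fun _ => 0, fun i hi => absurd hi (Nat.not_lt_zero _), fun i => χ i,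
      fun i hi => absurd hi (Nat.not_lt_zero _)⟩⟩
  | succ M ih =>
    obtain ⟨C, hC⟩ := ih
    obtain ⟨N, hN⟩ := vdw ρ (p * M * C)
    refine ⟨c₀ * N * C + N, fun χ => ?_⟩
    obtain ⟨a, D, hD, hDN, haN, haD, hvdw⟩ := hN (fun x => χ (c₀ * x))
    obtain ⟨w', hw', r', hr'⟩ := hC (fun x => χ (c₀ * D * x))
    refine ⟨fun j => if j < M then c₀ * D * w' j else a, ?_, fun j => if j < M then r' j else χ (c₀ * a), ?_⟩
    · intro i hi
      simp only
      split_ifs with h
      · refine ⟨Nat.mul_pos (Nat.mul_pos hc hD) (hw' i h).1, ?_⟩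
        refine le_trans ?_ (Nat.le_add_right _ _)
        exact Nat.mul_le_mul (Nat.mul_le_mul_left _ hDN) (hw' i h).2
      · exact ⟨by omega, haN.trans (Nat.le_add_left _ _)⟩
    · intro i hi μ hμ
      by_cases h : i < M
      · obtain ⟨m, hm0, hm, hmc⟩ := hr' i h μ hμ
        refine ⟨c₀ * D * m, Nat.mul_pos (Nat.mul_pos hc hD) hm0, ?_, ?_⟩
        · simp only [if_pos h]
          push_cast
          rw [hm, mul_add, mul_sum]
          congr 1
          · ring
          · refine sum_congr rfl fun j hj => ?_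
            simp only [if_pos (lt_trans (mem_range.1 hj) h)]
            push_cast
            ring
        · simp only [if_pos h]
          exact hmc
      · have hiM : i = M := by omega
        subst hiM
        set T : ℤ := ∑ j ∈ range i, μ j * w' j with hT
        have hTle : |T| ≤ ((p * i * C : ℕ) : ℤ) := by
          calc |T| ≤ ∑ j ∈ range i, |μ j * (w' j : ℤ)| := abs_sum_le_sum_abs _ _
            _ ≤ ∑ j ∈ range i, ((p : ℤ) * C) := by
                refine sum_le_sum fun j hj => ?_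
                rw [abs_mul]
                have h1 : |((w' j : ℕ) : ℤ)| ≤ C := by
                  rw [abs_of_nonneg (Int.natCast_nonneg _)]
                  exact_mod_cast (hw' j (mem_range.1 hj)).2
                exact mul_le_mul (hμ j) h1 (abs_nonneg _) (Int.natCast_nonneg _)
            _ = _ := by
                rw [sum_const, card_range, nsmul_eq_mul]
                push_cast
                ring
        have hpos : 0 < (a : ℤ) + T * D := by
          have h1 : -(T * D) ≤ ((p * i * C : ℕ) : ℤ) * D := by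
            rw [← neg_mul]
            exact mul_le_mul_of_nonneg_right ((neg_le_abs T).trans hTle) (Int.natCast_nonneg _)
          have h2 : ((p * i * C : ℕ) : ℤ) * D < a := by exact_mod_cast haD
          linarith
        obtain ⟨x, hx⟩ := Int.eq_ofNat_of_zero_le hpos.le
        have hx0 : 0 < x := by
          rw [hx] at hpos
          exact_mod_cast hpos
        refine ⟨c₀ * x, Nat.mul_pos hc hx0, ?_, ?_⟩
        · simp only [if_neg h]
          push_cast
          have hx' : (x : ℤ) = a + T * D := hx.symm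
          rw [hx', hT, sum_mul, mul_add, mul_sum]
          congr 1
          refine sum_congr rfl fun j hj => ?_
          simp only [if_pos (mem_range.1 hj)]
          push_cast
          ring
        · simp only [if_neg h]
          exact hvdw T hTle x hx.symm

/-- all rows of the same colour -/
theorem mono_rows (ρ p c₀ K : ℕ) (hc : 0 < c₀) : ∃ C : ℕ, ∀ χ : ℕ → Fin ρ, ∃ w : ℕ → ℕ,
    (∀ i < K, 0 < w i ∧ w i ≤ C) ∧ ∃ col : Fin ρ, ∀ i < K, ∀ μ : ℕ → ℤ, (∀ j, |μ j| ≤ p) →
      ∃ m : ℕ, 0 < m ∧ (m : ℤ) = c₀ * w i + ∑ j ∈ range i, μ j * w j ∧ χ m = col := by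
  classical
  obtain ⟨C, hC⟩ := rows ρ p c₀ hc (ρ * K)
  refine ⟨C, fun χ => ?_⟩
  obtain ⟨w, hw, r, hr⟩ := hC χ
  -- a colour with at least `K` rows
  have hex : ∃ col : Fin ρ, K ≤ ((range (ρ * K)).filter (fun i => r i = col)).card := by
    have hρ : 0 < ρ := Fin.pos (χ 0)
    by_contra hcon
    push Not at hcon
    have h1 : (range (ρ * K)).card = ∑ col : Fin ρ, ((range (ρ * K)).filter (fun i => r i = col)).card :=
      card_eq_sum_card_fiberwise (fun i _ => mem_coe.2 (mem_univ (r i)))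
    have h2 : ∑ col : Fin ρ, ((range (ρ * K)).filter (fun i => r i = col)).card < ∑ _col : Fin ρ, K := by
      apply sum_lt_sum_of_nonempty
      · exact ⟨⟨0, hρ⟩, mem_univ _⟩
      · intro col _
        exact hcon col
    rw [← h1, card_range, sum_const, card_univ, Fintype.card_fin, smul_eq_mul] at h2
    exact absurd h2 (lt_irrefl _)
  obtain ⟨col, hcol⟩ := hex
  obtain ⟨T, hTsub, hTc⟩ := exists_subset_card_eq hcol
  set e := T.orderEmbOfFin hTc with he
  have heT : ∀ a, e a ∈ T := fun a => orderEmbOfFin_mem T hTc a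
  have heM : ∀ a, e a < ρ * K ∧ r (e a) = col := fun a => by
    have := mem_filter.1 (hTsub (heT a))
    exact ⟨mem_range.1 this.1, this.2⟩
  refine ⟨fun i => if h : i < K then w (e ⟨i, h⟩) else 0, ?_, col, ?_⟩
  · intro i hi
    simp only [dif_pos hi]
    exact hw _ (heM _).1
  · intro i hi μ hμ
    set lam : ℕ → ℤ := fun j => if h : ∃ b : Fin K, e b = j then μ (h.choose : ℕ) else 0 with hlam
    have hlamle : ∀ j, |lam j| ≤ p := by
      intro j
      simp only [hlam]
      split_ifs with h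
      · exact hμ _
      · rw [abs_zero]
        exact Int.natCast_nonneg _
    have hlamb : ∀ b : Fin K, lam (e b) = μ b := by
      intro b
      have h : ∃ b' : Fin K, e b' = e b := ⟨b, rfl⟩
      simp only [hlam]
      rw [dif_pos h]
      have h1 := h.choose_spec
      rw [e.injective h1]
    obtain ⟨m, hm0, hm, hmc⟩ := hr (e ⟨i, hi⟩) (heM _).1 lam hlamle
    refine ⟨m, hm0, ?_, hmc.trans (heM _).2⟩
    rw [hm]
    simp only [dif_pos hi]
    congr 1
    -- only the chosen indices contribute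
    have h1 : ∑ j ∈ range (e ⟨i, hi⟩), lam j * (w j : ℤ) =
        ∑ b ∈ ((univ : Finset (Fin K)).filter (fun b : Fin K => (b : ℕ) < i)), μ (b : ℕ) * (w (e b) : ℤ) := by
      rw [← sum_subset (s₁ := ((univ : Finset (Fin K)).filter (fun b : Fin K => (b : ℕ) < i)).image e)]
      · rw [sum_image (fun a _ b _ h => e.injective h)]
        exact sum_congr rfl fun b _ => by rw [hlamb b]
      · intro j hj
        obtain ⟨b, hb, rfl⟩ := mem_image.1 hj
        have hb' := (mem_filter.1 hb).2
        exact mem_range.2 (e.strictMono (by exact_mod_cast hb'))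
      · intro j hj hnj
        simp only [hlam]
        rw [dif_neg, zero_mul]
        rintro ⟨b, hb⟩
        apply hnj
        refine mem_image.2 ⟨b, mem_filter.2 ⟨mem_univ _, ?_⟩, hb⟩
        have h2 := mem_range.1 hj
        rw [← hb] at h2
        have h3 := e.lt_iff_lt.1 h2
        exact_mod_cast h3
    rw [h1]
    refine sum_bij (fun b _ => (b : ℕ)) ?_ ?_ ?_ ?_
    · intro b hb
      exact mem_range.2 (mem_filter.1 hb).2
    · intro a _ b _ h
      exact Fin.ext h
    · intro j hj
      have hj' := mem_range.1 hj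
      exact ⟨⟨j, hj'.trans hi⟩, mem_filter.2 ⟨mem_univ _, hj'⟩, rfl⟩
    · intro b _
      simp

/-- a combination of sums over consecutive intervals is a combination -/
theorem intervals (w : ℕ → ℕ) (a : ℕ → ℕ) (lam : ℕ → ℤ) (p : ℕ) (hlam : ∀ j, |lam j| ≤ p) :
    ∀ i : ℕ, (∀ j < i, a j ≤ a (j + 1)) → ∃ μ : ℕ → ℤ, (∀ j, |μ j| ≤ p) ∧
      ∑ j ∈ range i, lam j * ((∑ l ∈ Ico (a j) (a (j + 1)), w l : ℕ) : ℤ) =
        ∑ l ∈ range (a i), μ l * w l := by
  intro i
  induction i with
  | zero =>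
    intro _
    exact ⟨fun _ => 0, fun j => by simp, by simp⟩
  | succ i ih =>
    intro ha
    obtain ⟨μ, hμ, hs⟩ := ih (fun j hj => ha j (by omega))
    have h1 := ha i (by omega)
    refine ⟨fun l => if l < a i then μ l else lam i, ?_, ?_⟩
    · intro j
      simp only
      split_ifs
      · exact hμ j
      · exact hlam i
    · rw [sum_range_succ, hs, ← sum_range_add_sum_Ico _ h1]
      congr 1
      · refine sum_congr rfl fun l hl => ?_
        simp only [if_pos (mem_range.1 hl)]
      · push_cast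
        rw [mul_sum]
        refine sum_congr rfl fun l hl => ?_
        have hnl : ¬ l < a i := by have := (mem_Ico.1 hl).1; omega
        simp only [if_neg hnl]

/-- the same with a leading interval -/
theorem leading (w : ℕ → ℕ) (a : ℕ → ℕ) (lam : ℕ → ℤ) (p c₀ : ℕ) (hlam : ∀ j, |lam j| ≤ p) (i : ℕ)
    (ha : ∀ j < i + 1, a j < a (j + 1)) : ∃ μ : ℕ → ℤ, (∀ j, |μ j| ≤ (max p c₀ : ℕ)) ∧
      (c₀ : ℤ) * ((∑ l ∈ Ico (a i) (a (i + 1)), w l : ℕ) : ℤ) +
        ∑ j ∈ range i, lam j * ((∑ l ∈ Ico (a j) (a (j + 1)), w l : ℕ) : ℤ) =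
        c₀ * w (a (i + 1) - 1) + ∑ l ∈ range (a (i + 1) - 1), μ l * w l := by
  obtain ⟨μ, hμ, hs⟩ := intervals w a lam p hlam i (fun j hj => (ha j (by omega)).le)
  have h1 := ha i (by omega)
  refine ⟨fun l => if l < a i then μ l else c₀, ?_, ?_⟩
  · intro j
    simp only
    split_ifs
    · refine (hμ j).trans ?_
      exact_mod_cast le_max_left p c₀
    · rw [abs_of_nonneg (Int.natCast_nonneg _)]
      exact_mod_cast le_max_right p c₀
  · rw [hs]
    have h2 : a i ≤ a (i + 1) - 1 := by omega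
    rw [← sum_range_add_sum_Ico _ h2]
    have h3 : Ico (a i) (a (i + 1)) = insert (a (i + 1) - 1) (Ico (a i) (a (i + 1) - 1)) := by
      ext l
      rw [mem_insert, mem_Ico, mem_Ico]
      omega
    rw [h3, sum_insert (by simp)]
    have h4 : ∑ l ∈ range (a i), (if l < a i then μ l else (c₀ : ℤ)) * (w l : ℤ) =
        ∑ l ∈ range (a i), μ l * w l := sum_congr rfl fun l hl => by simp only [if_pos (mem_range.1 hl)]
    have h5 : ∑ l ∈ Ico (a i) (a (i + 1) - 1), (if l < a i then μ l else (c₀ : ℤ)) * (w l : ℤ) =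
        c₀ * ∑ l ∈ Ico (a i) (a (i + 1) - 1), (w l : ℤ) := by
      rw [mul_sum]
      refine sum_congr rfl fun l hl => ?_
      have hnl : ¬ l < a i := by have := (mem_Ico.1 hl).1; omega
      simp only [if_neg hnl]
    rw [h4, h5]
    push_cast
    ring

end Pool.Agent.TH709.RGap
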