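import Pool.Agent.TH709.RGap.Engine
import Pool.Agent.TH709.RGap.Deuber

set_option autoImplicit false
set_option maxHeartbeats 4000000

/-!
# Deuber's theorem for consecutive record gaps (helper709)
-/

namespace Pool.Agent.TH709.RGap

open Finset Filter
open Pool.Agent.H256R2.SC (ff)

/-- a strictly increasing sequence is below its last value -/
theorem le_last (a : ℕ → ℕ) (k : ℕ) (ha : ∀ i < k, a i < a (i + 1)) : ∀ i ≤ k, a i ≤ a k := by
  intro i hi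
  induction k with
  | zero =>
    have : i = 0 := by omega
    rw [this]
  | succ k ih =>
    rcases Nat.lt_or_ge i (k + 1) with h | h
    · have h1 := ih (fun j hj => ha j (by omega)) (by omega)
      have h2 := ha k (by omega)
      omega
    · have : i = k + 1 := by omega
      rw [this]

theorem deuber_gaps (k p c₀ ρ : ℕ) (hc₀ : 0 < c₀) : ∃ c : ℝ, 0 < c ∧ ∀ᶠ x : ℝ in atTop,
    ∀ χ : ℕ → Fin ρ,
    x ^ (7 / 8 : ℝ) ≤ (Set.ncard {n : ℕ | (Nat.nth Nat.Prime (n + k) : ℝ) ≤ x ∧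
      (∀ i < k, c * ff x ≤ (Nat.nth Nat.Prime (n + i + 1) : ℝ) - Nat.nth Nat.Prime (n + i)) ∧
      ∃ col : Fin ρ, ∀ i < k, ∀ μ : ℕ → ℤ, (∀ j, |μ j| ≤ p) → ∃ m : ℕ, 0 < m ∧
        (m : ℤ) = c₀ * ((Nat.nth Nat.Prime (n + i + 1) : ℤ) - Nat.nth Nat.Prime (n + i)) +
          ∑ j ∈ range i, μ j * ((Nat.nth Nat.Prime (n + j + 1) : ℤ) - Nat.nth Nat.Prime (n + j)) ∧
        χ m = col} : ℝ) := by
  classical
  obtain ⟨K, hK⟩ := engine k
  obtain ⟨C, hC⟩ := mono_rows ρ (max p c₀) c₀ K hc₀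
  obtain ⟨c, hc, hx⟩ := hK C
  refine ⟨c, hc, ?_⟩
  filter_upwards [hx] with x hxx χ
  obtain ⟨B, hB, hmain⟩ := hxx
  obtain ⟨w, hw, col, hcol⟩ := hC (fun y => χ (B * y))
  refine (hmain w hw).trans ?_
  have hfin : {n : ℕ | (Nat.nth Nat.Prime (n + k) : ℝ) ≤ x ∧
      (∀ i < k, c * ff x ≤ (Nat.nth Nat.Prime (n + i + 1) : ℝ) - Nat.nth Nat.Prime (n + i)) ∧
      ∃ col : Fin ρ, ∀ i < k, ∀ μ : ℕ → ℤ, (∀ j, |μ j| ≤ p) → ∃ m : ℕ, 0 < m ∧
        (m : ℤ) = c₀ * ((Nat.nth Nat.Prime (n + i + 1) : ℤ) - Nat.nth Nat.Prime (n + i)) +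
          ∑ j ∈ range i, μ j * ((Nat.nth Nat.Prime (n + j + 1) : ℤ) - Nat.nth Nat.Prime (n + j)) ∧
        χ m = col}.Finite := by
    refine (Set.finite_Iic ⌊x⌋₊).subset ?_
    rintro n ⟨h1, -⟩
    refine Nat.le_floor (le_trans ?_ h1)
    have h2 : n + k ≤ Nat.nth Nat.Prime (n + k) :=
      (Nat.nth_strictMono Nat.infinite_setOfPred_prime).le_apply
    exact_mod_cast (Nat.le_add_right n k).trans h2
  rw [Nat.cast_le, ← Set.ncard_coe_finset]
  refine Set.ncard_le_ncard ?_ hfin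
  intro n hn
  rw [mem_coe, mem_filter] at hn
  obtain ⟨-, h1, h2, a, ha, hak, hgap⟩ := hn
  refine ⟨h1, h2, col, fun i hi μ hμ => ?_⟩
  have hgapz : ∀ j < k, (Nat.nth Nat.Prime (n + j + 1) : ℤ) - Nat.nth Nat.Prime (n + j) =
      B * ((∑ l ∈ Ico (a j) (a (j + 1)), w l : ℕ) : ℤ) := by
    intro j hj
    have h3 := hgap j hj
    have h4 : Nat.nth Nat.Prime (n + j) ≤ Nat.nth Nat.Prime (n + j + 1) :=
      Nat.nth_monotone Nat.infinite_setOfPred_prime (Nat.le_succ _)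
    rw [← Nat.cast_sub h4, h3, Nat.cast_mul]
  have hai : a (i + 1) ≤ a k := le_last a k ha (i + 1) hi
  have hai0 := ha i hi
  obtain ⟨μ', hμ', hs⟩ := leading w a μ p c₀ hμ i (fun j hj => ha j (by omega))
  obtain ⟨m, hm0, hm, hmc⟩ := hcol (a (i + 1) - 1) (by omega) μ' hμ'
  refine ⟨B * m, Nat.mul_pos hB hm0, ?_, hmc⟩
  rw [Nat.cast_mul, hm, ← hs, hgapz i hi, mul_add, mul_sum]
  congr 1
  · ring
  · refine sum_congr rfl fun j hj => ?_
    rw [hgapz j (by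
      have := mem_range.1 hj
      omega)]
    ring

end Pool.Agent.TH709.RGap
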