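import Pool.Agent.TH709.RGap.DeuberMain
import Pool.Agent.TH709.RGap.Dens

set_option autoImplicit false
set_option maxHeartbeats 4000000

/-!
# The multidimensional Szemerédi theorem with ratios from consecutive record gaps (helper709)
-/

namespace Pool.Agent.TH709.RGap

open Finset Filter
open Pool.Agent.H256R2.SC (ff)

/-- a subset sum as a row -/
theorem subset_row (c₀ : ℕ) (g : ℕ → ℤ) (I : Finset ℕ) (hI : I.Nonempty) : ∃ i ∈ I, ∃ μ : ℕ → ℤ,
    (∀ j, |μ j| ≤ c₀) ∧ (c₀ : ℤ) * g i + ∑ j ∈ range i, μ j * g j = ∑ j ∈ I, (c₀ : ℤ) * g j := by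
  classical
  refine ⟨I.max' hI, I.max'_mem hI, fun j => if j ∈ I then (c₀ : ℤ) else 0, fun j => ?_, ?_⟩
  · simp only
    split_ifs
    · rw [abs_of_nonneg (Int.natCast_nonneg _)]
    · rw [abs_zero]
      exact Int.natCast_nonneg _
  · rw [← add_sum_erase I _ (I.max'_mem hI)]
    congr 1
    have h1 : I.erase (I.max' hI) = (range (I.max' hI)).filter (fun j => j ∈ I) := by
      ext j
      rw [mem_erase, mem_filter, mem_range]
      constructor
      · rintro ⟨h2, h3⟩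
        exact ⟨lt_of_le_of_ne (I.le_max' j h3) h2, h3⟩
      · rintro ⟨h2, h3⟩
        exact ⟨h2.ne, h3⟩
    rw [h1, sum_filter]
    refine sum_congr rfl fun j _ => ?_
    simp only [ite_mul, zero_mul]

theorem szem_gaps (q : ℕ) (δ : ℝ) (hδ : 0 < δ) : ∃ η : ℝ, 0 < η ∧ ∀ k p c₀ : ℕ, 0 < c₀ →
    ∃ c : ℝ, 0 < c ∧ ∀ᶠ x : ℝ in atTop,
    ∀ (e : ℕ) (A : Set (Fin e → ℤ)), Dense A δ → ∀ F : Fin (q + 1) → Fin e → ℤ,
    x ^ (7 / 8 : ℝ) ≤ (Set.ncard {n : ℕ | (Nat.nth Nat.Prime (n + k) : ℝ) ≤ x ∧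
      (∀ i < k, c * ff x ≤ (Nat.nth Nat.Prime (n + i + 1) : ℝ) - Nat.nth Nat.Prime (n + i)) ∧
      ∀ i < k, ∀ μ : ℕ → ℤ, (∀ j, |μ j| ≤ p) → ∃ m : ℕ, 0 < m ∧
        (m : ℤ) = c₀ * ((Nat.nth Nat.Prime (n + i + 1) : ℤ) - Nat.nth Nat.Prime (n + i)) +
          ∑ j ∈ range i, μ j * ((Nat.nth Nat.Prime (n + j + 1) : ℤ) - Nat.nth Nat.Prime (n + j)) ∧
        Dense {a : Fin e → ℤ | ∀ t, a + (m : ℤ) • F t ∈ A} η} : ℝ) := by
  classical
  obtain ⟨r, η, hη, hipr⟩ := ipr q δ hδ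
  refine ⟨η, hη, fun k p c₀ hc₀ => ?_⟩
  obtain ⟨c, hc, hx⟩ := deuber_gaps (max k r) (max p c₀) c₀ 2 hc₀
  refine ⟨c, hc, ?_⟩
  filter_upwards [hx] with x hxx
  intro e A hA F
  refine (hxx (fun m => if Dense {a : Fin e → ℤ | ∀ t, a + (m : ℤ) • F t ∈ A} η then 1 else 0)).trans ?_
  rw [Nat.cast_le]
  refine Set.ncard_le_ncard ?_ ?_
  · rintro n ⟨h1, h2, col, h3⟩
    -- the colour is `1`
    have hcol : col = 1 := by
      obtain ⟨I, hI, hD⟩ := hipr e A hA F (fun i : Fin r => (c₀ : ℤ) *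
        ((Nat.nth Nat.Prime (n + i + 1) : ℤ) - Nat.nth Nat.Prime (n + i)))
      obtain ⟨i, hi, μ, hμ, hs⟩ := subset_row c₀
        (fun j => (Nat.nth Nat.Prime (n + j + 1) : ℤ) - Nat.nth Nat.Prime (n + j))
        (I.image (fun j : Fin r => (j : ℕ))) (hI.image _)
      obtain ⟨i', hi', hii⟩ := mem_image.1 hi
      have hik : i < max k r := by
        have := i'.2
        omega
      obtain ⟨m, hm0, hm, hmc⟩ := h3 i hik μ (fun j => (hμ j).trans (by
        exact_mod_cast le_max_right p c₀))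
      rw [sum_image (fun a _ b _ h => Fin.ext h)] at hs
      have hme : (m : ℤ) = ∑ j ∈ I, (c₀ : ℤ) *
          ((Nat.nth Nat.Prime (n + j + 1) : ℤ) - Nat.nth Nat.Prime (n + j)) := by
        rw [hm]
        exact hs
      rw [← hme] at hD
      rw [← hmc]
      exact if_pos hD
    refine ⟨le_trans ?_ h1, fun i hi => h2 i (lt_of_lt_of_le hi (le_max_left _ _)), fun i hi μ hμ => ?_⟩
    · have h4 : Nat.nth Nat.Prime (n + k) ≤ Nat.nth Nat.Prime (n + max k r) :=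
        Nat.nth_monotone Nat.infinite_setOfPred_prime (by
          have := le_max_left k r
          omega)
      exact_mod_cast h4
    · obtain ⟨m, hm0, hm, hmc⟩ := h3 i (lt_of_lt_of_le hi (le_max_left _ _)) μ (fun j => (hμ j).trans (by
        exact_mod_cast le_max_left p c₀))
      refine ⟨m, hm0, hm, ?_⟩
      rw [hcol] at hmc
      by_contra hcon
      simp only [if_neg hcon] at hmc
      exact absurd hmc (by decide)
  · refine (Set.finite_Iic ⌊x⌋₊).subset ?_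
    rintro n ⟨h1, -⟩
    refine Nat.le_floor (le_trans ?_ h1)
    have h2 : n + k ≤ Nat.nth Nat.Prime (n + k) :=
      (Nat.nth_strictMono Nat.infinite_setOfPred_prime).le_apply
    exact_mod_cast (Nat.le_add_right n k).trans h2

end Pool.Agent.TH709.RGap
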